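import Pool.Agent.H252.MD.Iface

/-!
# MD: local approximation from mean dimension (subtask of MP_c00d13_an)
-/

set_option autoImplicit false

namespace Pool.Agent.H870.MD

open Filter Topology
open Pool.Agent.H252.MD

noncomputable section

/-- weighted means are close to a value which is close to all values with nonzero weight -/
lemma mean_close {ι : Type} (s : Finset ι) (a : ι → ℝ) (v : ι → ℂ) (w : ℂ) (ε : ℝ)
    (ha : ∀ i ∈ s, 0 ≤ a i) (hA : 1 ≤ ∑ i ∈ s, a i)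
    (hv : ∀ i ∈ s, a i ≠ 0 → ‖v i - w‖ ≤ ε) :
    ‖(∑ i ∈ s, (a i : ℂ) * v i) / ((∑ i ∈ s, a i : ℝ) : ℂ) - w‖ ≤ ε := by
  have hpos : 0 < ∑ i ∈ s, a i := lt_of_lt_of_le one_pos hA
  have hne : ((∑ i ∈ s, a i : ℝ) : ℂ) ≠ 0 := by exact_mod_cast hpos.ne'
  have h1 : (∑ i ∈ s, (a i : ℂ) * v i) / ((∑ i ∈ s, a i : ℝ) : ℂ) - w
      = (∑ i ∈ s, (a i : ℂ) * (v i - w)) / ((∑ i ∈ s, a i : ℝ) : ℂ) := by
    rw [div_sub' hne]
    congr 1
    simp only [mul_sub, Finset.sum_sub_distrib]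
    congr 1
    rw [← Finset.sum_mul]
    push_cast
    ring
  rw [h1, norm_div, div_le_iff₀ (by simpa using hne)]
  have h2 : ‖((∑ i ∈ s, a i : ℝ) : ℂ)‖ = ∑ i ∈ s, a i := by
    rw [Complex.norm_real, Real.norm_of_nonneg hpos.le]
  rw [h2, Finset.mul_sum]
  refine (norm_sum_le _ _).trans (Finset.sum_le_sum fun i hi => ?_)
  rw [norm_mul, Complex.norm_real, Real.norm_of_nonneg (ha i hi)]
  by_cases h0 : a i = 0
  · simp [h0]
  · rw [mul_comm ε]
    exact mul_le_mul_of_nonneg_left (hv i hi h0) (ha i hi)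

/-- weighted means depend in a Lipschitz way on the weights -/
lemma mean_lip {ι : Type} (s : Finset ι) (a b : ι → ℝ) (v : ι → ℂ) (B ρ : ℝ) (hb : ∀ i ∈ s, 0 ≤ b i)
    (hA : 1 ≤ ∑ i ∈ s, a i) (hA' : 1 ≤ ∑ i ∈ s, b i)
    (hv : ∀ i ∈ s, ‖v i‖ ≤ B) (hab : ∀ i ∈ s, |a i - b i| ≤ ρ) :
    ‖(∑ i ∈ s, (a i : ℂ) * v i) / ((∑ i ∈ s, a i : ℝ) : ℂ) -
      (∑ i ∈ s, (b i : ℂ) * v i) / ((∑ i ∈ s, b i : ℝ) : ℂ)‖ ≤ 2 * s.card * B * ρ := by
  set w : ℂ := (∑ i ∈ s, (b i : ℂ) * v i) / ((∑ i ∈ s, b i : ℝ) : ℂ) with hw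
  have hposA : 0 < ∑ i ∈ s, a i := lt_of_lt_of_le one_pos hA
  have hposB : 0 < ∑ i ∈ s, b i := lt_of_lt_of_le one_pos hA'
  have hneA : ((∑ i ∈ s, a i : ℝ) : ℂ) ≠ 0 := by exact_mod_cast hposA.ne'
  have hneB : ((∑ i ∈ s, b i : ℝ) : ℂ) ≠ 0 := by exact_mod_cast hposB.ne'
  have hwB : ‖w‖ ≤ B := by
    have := mean_close s b v 0 B hb hA' (fun i hi _ => by simpa using hv i hi)
    simpa [hw] using this
  have hs0 : ∑ i ∈ s, (b i : ℂ) * (v i - w) = 0 := by
    simp only [mul_sub, Finset.sum_sub_distrib]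
    rw [← Finset.sum_mul, hw]
    rw [sub_eq_zero, ← Complex.ofReal_sum, mul_div_cancel₀ _ hneB]
  have h1 : (∑ i ∈ s, (a i : ℂ) * v i) / ((∑ i ∈ s, a i : ℝ) : ℂ) - w
      = (∑ i ∈ s, ((a i - b i : ℝ) : ℂ) * (v i - w)) / ((∑ i ∈ s, a i : ℝ) : ℂ) := by
    rw [div_sub' hneA]
    congr 1
    have : ∑ i ∈ s, ((a i - b i : ℝ) : ℂ) * (v i - w)
        = ∑ i ∈ s, (a i : ℂ) * (v i - w) - ∑ i ∈ s, (b i : ℂ) * (v i - w) := by
      rw [← Finset.sum_sub_distrib]
      refine Finset.sum_congr rfl fun i _ => ?_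
      push_cast
      ring
    rw [this, hs0, sub_zero]
    simp only [mul_sub, Finset.sum_sub_distrib]
    congr 1
    rw [← Finset.sum_mul]
    push_cast
    ring
  rw [h1, norm_div]
  have h2 : ‖((∑ i ∈ s, a i : ℝ) : ℂ)‖ = ∑ i ∈ s, a i := by
    rw [Complex.norm_real, Real.norm_of_nonneg hposA.le]
  rw [h2]
  have h3 : ‖∑ i ∈ s, ((a i - b i : ℝ) : ℂ) * (v i - w)‖ ≤ 2 * s.card * B * ρ := by
    refine (norm_sum_le _ _).trans ?_
    have : ∀ i ∈ s, ‖((a i - b i : ℝ) : ℂ) * (v i - w)‖ ≤ ρ * (2 * B) := by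
      intro i hi
      rw [norm_mul, Complex.norm_real, Real.norm_eq_abs]
      refine mul_le_mul (hab i hi) ?_ (norm_nonneg _) ((abs_nonneg _).trans (hab i hi))
      calc ‖v i - w‖ ≤ ‖v i‖ + ‖w‖ := norm_sub_le _ _
        _ ≤ B + B := add_le_add (hv i hi) hwB
        _ = 2 * B := by ring
    refine (Finset.sum_le_sum this).trans ?_
    rw [Finset.sum_const, nsmul_eq_mul]
    apply le_of_eq
    ring
  exact (div_le_self (norm_nonneg _) hA).trans h3

variable {X : Type} [TopologicalSpace X]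

/-- a finite open cover on whose members finitely many functions oscillate by at most `ε` -/
lemma exists_osc_cover [CompactSpace X] {m : ℕ} (f : Fin m → C(X, ℂ)) {ε : ℝ} (hε : 0 < ε) :
    ∃ U : Set (Set X), IsCov U ∧ ∀ s ∈ U, ∀ x ∈ s, ∀ y ∈ s, ∀ k, ‖f k x - f k y‖ ≤ ε := by
  classical
  let O : X → Set X := fun x => ⋂ k, {y | ‖f k y - f k x‖ < ε / 2}
  have hO : ∀ x, IsOpen (O x) := fun x => isOpen_iInter_of_finite fun k =>
    isOpen_lt (((f k).continuous.sub continuous_const).norm) continuous_const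
  have hxO : ∀ x, x ∈ O x := fun x => by
    simp only [O, Set.mem_iInter, Set.mem_ofPred_eq, sub_self, norm_zero]
    intro _
    linarith
  obtain ⟨t, ht⟩ := isCompact_univ.elim_finite_subcover O hO
    (fun x _ => Set.mem_iUnion.2 ⟨x, hxO x⟩)
  refine ⟨O '' (t : Set X), ⟨t.finite_toSet.image _, ?_, ?_⟩, ?_⟩
  · rintro _ ⟨x, _, rfl⟩
    exact hO x
  · refine Set.eq_univ_of_forall fun x => ?_
    have := ht (Set.mem_univ x)
    simp only [Set.mem_iUnion] at this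
    obtain ⟨y, hy, hx⟩ := this
    exact ⟨O y, ⟨y, hy, rfl⟩, hx⟩
  · rintro _ ⟨z, _, rfl⟩ x hx y hy k
    simp only [O, Set.mem_iInter, Set.mem_ofPred_eq] at hx hy
    calc ‖f k x - f k y‖ = ‖(f k x - f k z) - (f k y - f k z)‖ := by congr 1; ring
      _ ≤ ‖f k x - f k z‖ + ‖f k y - f k z‖ := norm_sub_le _ _
      _ ≤ ε / 2 + ε / 2 := add_le_add (hx k).le (hy k).le
      _ = ε := by ring

lemma zt_add (i j : ℤ) : zt (i + j) = zt i * zt j := rfl

lemma zt_zero : zt 0 = 1 := rfl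

theorem s_MD : S_MD := by
  intro X _ _ _ _ _ HO D₀ D hD hM m f ε hε
  classical
  rcases isEmpty_or_nonempty X with hX | hX
  · refine ⟨0, fun i => i.elim0, ⟨fun j => j.elim0, fun j => j.elim0, 0, fun L _ x =>
      (hX.false x).elim⟩, 0, 0, le_refl _, f, fun k x => (hX.false x).elim, fun k x =>
      (hX.false x).elim⟩
  obtain ⟨x₀⟩ := hX
  -- `D₀ ≥ 0`
  have key : ∀ (U : Set (Set X)), IsCov U → ∀ x : X, 1 ≤ {s | s ∈ U ∧ x ∈ s}.ncard := by
    intro U hU x
    have hfin : {s | s ∈ U ∧ x ∈ s}.Finite := hU.1.subset fun s hs => hs.1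
    rw [Nat.one_le_iff_ne_zero, Ne, Set.ncard_eq_zero hfin]
    have : x ∈ ⋃₀ U := by rw [hU.2.2]; trivial
    obtain ⟨s, hs, hx⟩ := this
    exact Set.Nonempty.ne_empty ⟨s, hs, hx⟩
  have hD0 : 0 ≤ D₀ := by
    obtain ⟨n, hn, V, hV, -, hc⟩ := hM {Set.univ}
      ⟨Set.finite_singleton _, by rintro s rfl; exact isOpen_univ, by simp⟩ 1
    have h1 := hc x₀
    have h2 : (1 : ℝ) ≤ ({s | s ∈ V ∧ x₀ ∈ s}.ncard : ℝ) := by exact_mod_cast key V hV x₀
    have h3 : (0 : ℝ) ≤ D₀ * n := by linarith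
    have h4 : (0 : ℝ) < n := by exact_mod_cast hn
    exact nonneg_of_mul_nonneg_left h3 h4
  obtain ⟨η, hη0, hη⟩ : ∃ η : ℝ, 0 < η ∧ (1 + η) * (D₀ + η) ≤ D := by
    have hd : 0 < D - D₀ := by linarith
    have h3 : 0 < D₀ + 3 := by linarith
    refine ⟨min 1 ((D - D₀) / (D₀ + 3)), lt_min one_pos (div_pos hd h3), ?_⟩
    set η := min 1 ((D - D₀) / (D₀ + 3)) with hη
    have h1 : η ≤ 1 := min_le_left _ _
    have h2 : η ≤ (D - D₀) / (D₀ + 3) := min_le_right _ _
    have h4 : 0 < η := lt_min one_pos (div_pos hd h3)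
    have h5 : η * (D₀ + 3) ≤ D - D₀ := (le_div_iff₀ h3).1 h2
    nlinarith
  obtain ⟨U, hU, hosc⟩ := exists_osc_cover f hε
  obtain ⟨n, hn, V, hV, href, hcard⟩ := hM U hU (⌈1 / η⌉₊ + 1)
  have hn1 : 1 ≤ n := le_trans (Nat.le_add_left _ _) hn
  have hn0 : (0 : ℝ) < n := by exact_mod_cast hn1
  have hnη : 1 / (n : ℝ) ≤ η := by
    rw [div_le_iff₀ hn0]
    have h1 : 1 / η ≤ n := by
      refine (Nat.le_ceil _).trans ?_
      exact_mod_cast (le_trans (Nat.le_succ _) hn)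
    rw [div_le_iff₀ hη0] at h1
    linarith [mul_comm (n : ℝ) η]
  obtain ⟨ω, hω⟩ := HO n η hn1 hη0
  have : Fintype V := hV.1.fintype
  obtain ⟨p, hp⟩ := PartitionOfUnity.exists_isSubordinate (X := X) (s := Set.univ) isClosed_univ
    (fun s : V => (s : Set X)) (fun s => hV.2.1 _ s.2) (by
      intro x _
      have : x ∈ ⋃₀ V := by rw [hV.2.2]; trivial
      obtain ⟨s, hs, hx⟩ := this
      exact Set.mem_iUnion.2 ⟨⟨s, hs⟩, hx⟩)
  have hpsum : ∀ x, ∑ s : V, p s x = 1 := by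
    intro x
    rw [← finsum_eq_sum_of_fintype]
    exact p.sum_eq_one (Set.mem_univ x)
  have hpmem : ∀ (s : V) (x : X), p s x ≠ 0 → x ∈ (s : Set X) := fun s x h =>
    hp s (subset_tsupport _ h)
  have hp0 : ∀ (s : V) (x : X), 0 ≤ p s x := fun s x => p.nonneg s x
  have hp1 : ∀ (s : V) (x : X), p s x ≤ 1 := fun s x => p.le_one s x
  let e : Fin (Fintype.card V) ≃ V := (Fintype.equivFin V).symm
  let q : Fin (Fintype.card V) → C(X, ℝ) := fun i => ω * (p (e i))
  have hq : ∀ i x, q i x = ω x * p (e i) x := fun i x => rfl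
  have hq0 : ∀ i x, 0 ≤ q i x := fun i x => mul_nonneg (hω.nonneg x) (hp0 _ x)
  have hqsum : ∀ x, ∑ i, q i x = ω x := by
    intro x
    simp only [hq]
    rw [← Finset.mul_sum, Equiv.sum_comp e (fun s => p s x), hpsum, mul_one]
  let xs : V → X := fun s => if h : (s : Set X).Nonempty then h.some else x₀
  have hxs : ∀ s : V, (s : Set X).Nonempty → xs s ∈ (s : Set X) := by
    intro s h
    simp only [xs, dif_pos h]
    exact h.some_mem
  -- the index set and the weights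
  let I : Finset (ℕ × Fin (Fintype.card V)) := Finset.range n ×ˢ Finset.univ
  let a : X → ℕ × Fin (Fintype.card V) → ℝ := fun x r => q r.2 (zt (-(r.1 : ℤ)) • x)
  have ha : ∀ x r, 0 ≤ a x r := fun x r => hq0 _ _
  have hasum : ∀ x, 1 ≤ ∑ r ∈ I, a x r := by
    intro x
    rw [Finset.sum_product]
    simp only [a, hqsum]
    obtain ⟨j, hj, hωj⟩ := hω.cover x
    calc (1 : ℝ) = ω (zt (-(j : ℤ)) • x) := hωj.symm
      _ ≤ ∑ i ∈ Finset.range n, ω (zt (-(i : ℤ)) • x) :=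
        Finset.single_le_sum (f := fun i : ℕ => ω (zt (-(i : ℤ)) • x))
          (fun i _ => hω.nonneg _) (Finset.mem_range.2 hj)
  have hacont : ∀ r, Continuous fun x => a x r := fun r =>
    (q r.2).continuous.comp (continuous_const_smul _)
  let v : Fin m → ℕ × Fin (Fintype.card V) → ℂ := fun k r => f k (zt (r.1 : ℤ) • xs (e r.2))
  let g : Fin m → C(X, ℂ) := fun k =>
    ⟨fun x => (∑ r ∈ I, (a x r : ℂ) * v k r) / ((∑ r ∈ I, a x r : ℝ) : ℂ), by
      refine Continuous.div ?_ ?_ ?_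
      · exact continuous_finsetSum _ fun r _ =>
          (Complex.continuous_ofReal.comp (hacont r)).mul continuous_const
      · exact Complex.continuous_ofReal.comp (continuous_finsetSum _ fun r _ => hacont r)
      · intro x
        have : 0 < ∑ r ∈ I, a x r := lt_of_lt_of_le one_pos (hasum x)
        exact_mod_cast this.ne'⟩
  have hg : ∀ k x, g k x = (∑ r ∈ I, (a x r : ℂ) * v k r) / ((∑ r ∈ I, a x r : ℝ) : ℂ) :=
    fun k x => rfl
  let B : ℝ := ∑ k, ‖f k‖
  have hB : ∀ k, ‖f k‖ ≤ B := fun k =>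
    Finset.single_le_sum (f := fun k => ‖f k‖) (fun k _ => norm_nonneg _) (Finset.mem_univ k)
  have hB0 : 0 ≤ B := Finset.sum_nonneg fun k _ => norm_nonneg _
  refine ⟨Fintype.card V, q, ⟨hq0, ?_, ?_⟩, n, 2 * I.card * B, by positivity, g, ?_, ?_⟩
  · intro i x
    exact mul_le_one₀ (hω.le_one x) (hp0 _ x) (hp1 _ x)
  · -- density
    obtain ⟨L₁, hL₁⟩ := hω.dens
    refine ⟨L₁, fun L hL x => ?_⟩
    have h1 : ((Finset.univ ×ˢ Finset.range L : Finset (Fin (Fintype.card V) × ℕ)).filter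
        fun p => q p.1 (zt (p.2 : ℤ) • x) ≠ 0).card
        = ∑ i ∈ (Finset.range L).filter (fun i : ℕ => ω (zt i • x) ≠ 0),
          (Finset.univ.filter fun j => q j (zt (i : ℤ) • x) ≠ 0).card := by
      rw [← Finset.card_sigma]
      refine Finset.card_bij (fun p _ => ⟨p.2, p.1⟩) ?_ ?_ ?_
      · rintro ⟨j, i⟩ h
        simp only [Finset.mem_filter, Finset.mem_product, Finset.mem_univ, true_and,
          Finset.mem_sigma] at h ⊢
        refine ⟨⟨h.1, ?_⟩, h.2⟩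
        intro h0
        exact h.2 (by rw [hq, h0, zero_mul])
      · rintro ⟨j, i⟩ _ ⟨j', i'⟩ _ h
        simp only [Sigma.mk.injEq, heq_eq_eq] at h
        rw [h.1, h.2]
      · rintro ⟨i, j⟩ h
        simp only [Finset.mem_sigma, Finset.mem_filter, Finset.mem_univ, true_and] at h
        exact ⟨(j, i), Finset.mem_filter.2 ⟨Finset.mem_product.2 ⟨Finset.mem_univ _, h.1.1⟩, h.2⟩, rfl⟩
    have h2 : ∀ i : ℕ, ((Finset.univ.filter fun j => q j (zt (i : ℤ) • x) ≠ 0).card : ℝ)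
        ≤ D₀ * n + 1 := by
      intro i
      refine le_trans ?_ (hcard (zt (i : ℤ) • x))
      have hfin : {s | s ∈ V ∧ zt (i : ℤ) • x ∈ s}.Finite := hV.1.subset fun s hs => hs.1
      have : ((Finset.univ.filter fun j => q j (zt (i : ℤ) • x) ≠ 0).image
          fun j => ((e j : V) : Set X)) ⊆ hfin.toFinset := by
        intro s hs
        simp only [Finset.mem_image, Finset.mem_filter, Finset.mem_univ, true_and] at hs
        obtain ⟨j, hj, rfl⟩ := hs
        rw [Set.Finite.mem_toFinset]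
        refine ⟨(e j).2, hpmem _ _ fun h0 => hj (by rw [hq, h0, mul_zero])⟩
      have h3 := Finset.card_le_card this
      rw [Finset.card_image_of_injective (f := fun j => ((e j : V) : Set X)) _
          (Subtype.val_injective.comp e.injective),
        ← Set.ncard_eq_toFinset_card _ hfin] at h3
      exact_mod_cast h3
    rw [h1]
    push_cast
    calc ∑ i ∈ (Finset.range L).filter (fun i : ℕ => ω (zt i • x) ≠ 0),
          ((Finset.univ.filter fun j => q j (zt (i : ℤ) • x) ≠ 0).card : ℝ)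
        ≤ ∑ i ∈ (Finset.range L).filter (fun i : ℕ => ω (zt i • x) ≠ 0), (D₀ * n + 1) :=
          Finset.sum_le_sum fun i _ => h2 i
      _ = ((Finset.range L).filter (fun i : ℕ => ω (zt i • x) ≠ 0)).card * (D₀ * n + 1) := by
          rw [Finset.sum_const, nsmul_eq_mul]
      _ ≤ ((1 + η) * L / n) * (D₀ * n + 1) := by
          refine mul_le_mul_of_nonneg_right (hL₁ L hL x) ?_
          positivity
      _ = ((1 + η) * (D₀ + 1 / n)) * L := by
          field_simp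
      _ ≤ ((1 + η) * (D₀ + η)) * L := by
          refine mul_le_mul_of_nonneg_right ?_ (Nat.cast_nonneg _)
          refine mul_le_mul_of_nonneg_left ?_ (by linarith)
          linarith
      _ ≤ D * L := mul_le_mul_of_nonneg_right hη (Nat.cast_nonneg _)
  · -- approximation
    intro k x
    rw [hg]
    refine mean_close I (a x) (v k) (f k x) ε (fun r _ => ha x r) (hasum x) ?_
    rintro ⟨j, i⟩ hr h0
    have hj : j < n := by
      have := (Finset.mem_product.1 hr).1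
      exact Finset.mem_range.1 this
    have hpne : p (e i) (zt (-(j : ℤ)) • x) ≠ 0 := fun h => h0 (by
      show q i _ = 0
      rw [hq, h, mul_zero])
    have hmem := hpmem _ _ hpne
    obtain ⟨t, htU, ht⟩ := href _ (e i).2
    have h1 := ht _ hmem ⟨j, hj⟩
    have h2 := ht _ (hxs (e i) ⟨_, hmem⟩) ⟨j, hj⟩
    have h3 : zt (j : ℤ) • zt (-(j : ℤ)) • x = x := by
      rw [smul_smul, ← zt_add, add_neg_cancel, zt_zero, one_smul]
    simp only at h1 h2
    rw [h3] at h1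
    exact hosc _ (htU ⟨j, hj⟩) _ h2 _ h1 k
  · -- Lipschitz
    intro k x y ρ hρ hnear
    rw [hg, hg]
    refine mean_lip I (a x) (a y) (v k) B ρ (fun r _ => ha y r)
      (hasum x) (hasum y) (fun r _ => ((f k).norm_coe_le_norm _).trans (hB k)) ?_
    rintro ⟨j, i⟩ hr
    have hj : j < n := by
      have := (Finset.mem_product.1 hr).1
      exact Finset.mem_range.1 this
    exact hnear i (-(j : ℤ)) (by omega) (by omega)

end

end Pool.Agent.H870.MD
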